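import Pool.Agent.Helper85.SU.MWb

/-!
# Project SU, module MW: medium arcs, weighted form
-/

set_option autoImplicit false

namespace Pool.Agent.Helper85.SU

open Finset MeasureTheory Filter
open Pool.Agent.Helper48.BK (ex)
open Pool.Agent.Helper2.MR (ch)
open Pool.Agent.Helper15.AB (IsW)
open Pool.Agent.Helper23.GK
open Pool.Agent.Helper58.SU

/-- powers of the logarithm against a power -/
theorem ev_log (K : ℕ) (C δ : ℝ) (hδ : 0 < δ) :
    ∀ᶠ y : ℕ in atTop, C * Real.log y ^ K ≤ (y : ℝ) ^ δ := by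
  have h1 : (fun x : ℝ => Real.log x ^ (K : ℝ)) =o[atTop] fun x => x ^ δ :=
    isLittleO_log_rpow_rpow_atTop _ hδ
  have h2 := h1.bound (c := 1 / (|C| + 1)) (by positivity)
  have h3 : ∀ᶠ x : ℝ in atTop, C * Real.log x ^ K ≤ x ^ δ := by
    filter_upwards [h2, eventually_ge_atTop 1] with x hx hx1
    have hl : 0 ≤ Real.log x := Real.log_nonneg hx1
    have hx0 : 0 < x := by linarith
    rw [Real.rpow_natCast, Real.norm_of_nonneg (pow_nonneg hl _),
      Real.norm_of_nonneg (Real.rpow_nonneg hx0.le _)] at hx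
    have h4 : 0 ≤ Real.log x ^ K := pow_nonneg hl _
    have h5 : (|C| + 1) * Real.log x ^ K ≤ x ^ δ := by
      calc (|C| + 1) * Real.log x ^ K ≤ (|C| + 1) * (1 / (|C| + 1) * x ^ δ) :=
            mul_le_mul_of_nonneg_left hx (by positivity)
        _ = x ^ δ := by field_simp
    have h6 : C * Real.log x ^ K ≤ (|C| + 1) * Real.log x ^ K :=
      mul_le_mul_of_nonneg_right (by linarith [le_abs_self C]) h4
    linarith
  exact tendsto_natCast_atTop_atTop.eventually h3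

/-- the size of `R` -/
theorem R_bound (y h X L β η D : ℝ) (B' : ℕ) (hy : 1 ≤ y) (hL : 1 ≤ L) (hη1 : η < 1)
    (hh : y ^ η ≤ h) (hX0 : 0 ≤ X) (hX : X ≤ y / 2) (hβ : |β| ≤ y * L ^ B' / h ^ 2)
    (hD : 0 ≤ D) :
    (1 + |β| * X + X / h) * D ≤ 2 * y ^ (2 - 2 * η) * (L ^ B' * D) := by
  have hy0 : 0 < y := by linarith
  have hp : 0 < y ^ η := Real.rpow_pos_of_pos hy0 _
  have hh0 : 0 < h := lt_of_lt_of_le hp hh
  have hLB : 1 ≤ L ^ B' := one_le_pow₀ hL
  have h1 : 1 ≤ y ^ (2 - 2 * η) := Real.one_le_rpow hy (by linarith)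
  have h2 : y / h ≤ y ^ (1 - η) := by
    rw [div_le_iff₀ hh0]
    calc y = y ^ (1 - η) * y ^ η := by
          rw [← Real.rpow_add hy0]
          simp
      _ ≤ y ^ (1 - η) * h := mul_le_mul_of_nonneg_left hh (Real.rpow_nonneg hy0.le _)
  have h3 : y ^ (1 - η) ≤ y ^ (2 - 2 * η) :=
    Real.rpow_le_rpow_of_exponent_le hy (by linarith)
  have h4 : (y / h) ^ 2 ≤ y ^ (2 - 2 * η) := by
    calc (y / h) ^ 2 ≤ (y ^ (1 - η)) ^ 2 := pow_le_pow_left₀ (by positivity) h2 2
      _ = y ^ (2 - 2 * η) := by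
          rw [← Real.rpow_natCast, ← Real.rpow_mul hy0.le]
          congr 1
          push_cast
          ring
  have h5 : |β| * X ≤ y ^ (2 - 2 * η) * L ^ B' / 2 := by
    calc |β| * X ≤ (y * L ^ B' / h ^ 2) * (y / 2) :=
          mul_le_mul hβ hX hX0 (by positivity)
      _ = (y / h) ^ 2 * L ^ B' / 2 := by
          field_simp
      _ ≤ y ^ (2 - 2 * η) * L ^ B' / 2 := by
          have := mul_le_mul_of_nonneg_right h4 (by positivity : 0 ≤ L ^ B')
          linarith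
  have h6 : X / h ≤ y ^ (2 - 2 * η) / 2 := by
    calc X / h ≤ (y / 2) / h := div_le_div_of_nonneg_right hX hh0.le
      _ = (y / h) / 2 := by ring
      _ ≤ _ := by linarith
  have hY : 0 ≤ y ^ (2 - 2 * η) := by linarith
  have h7 : 1 + |β| * X + X / h ≤ 2 * y ^ (2 - 2 * η) * L ^ B' := by
    nlinarith
  calc (1 + |β| * X + X / h) * D ≤ (2 * y ^ (2 - 2 * η) * L ^ B') * D :=
        mul_le_mul_of_nonneg_right h7 hD
    _ = _ := by ring

/-- the first error term -/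
theorem term_a (C1 L R X y h β G : ℝ) (A : ℕ) (hC1 : 0 < C1) (hL1 : 1 ≤ L) (hX0 : 0 < X)
    (hy0 : 0 < y) (hh0 : 0 < h) (hG : G ≤ 2 * L) (hX3 : y / 3 ≤ X)
    (hR : R = (1 + |β| * X + X / h) * L ^ (A + 3)) (hC : 12 * C1 ≤ L) :
    C1 * G * (1 + |β| * h) / R ≤ h / y / L ^ A / 2 := by
  have hL0 : 0 < L := by linarith
  have hq : 0 < 1 + |β| * X + X / h := by positivity
  have h5 : (1 + |β| * h) / R ≤ 3 * (h / y) / L ^ (A + 3) := by
    rw [hR, div_le_div_iff₀ (by positivity) (by positivity)]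
    have h6 : 1 + |β| * h ≤ 3 * (h / y) * (1 + |β| * X + X / h) := by
      have h7 : 1 + |β| * h = h / X * (|β| * X + X / h) := by
        field_simp
        ring
      have h8 : h / X ≤ 3 * (h / y) := by
        rw [div_le_iff₀ hX0]
        have h9 : h ≤ h * (3 * X / y) := by
          apply le_mul_of_one_le_right hh0.le
          rw [le_div_iff₀ hy0]
          linarith
        calc h ≤ h * (3 * X / y) := h9
          _ = _ := by ring
      rw [h7]
      calc h / X * (|β| * X + X / h) ≤ 3 * (h / y) * (|β| * X + X / h) :=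
            mul_le_mul_of_nonneg_right h8 (by positivity)
        _ ≤ _ := by
            apply mul_le_mul_of_nonneg_left _ (by positivity)
            linarith
    calc (1 + |β| * h) * L ^ (A + 3) ≤
          (3 * (h / y) * (1 + |β| * X + X / h)) * L ^ (A + 3) :=
          mul_le_mul_of_nonneg_right h6 (by positivity)
      _ = _ := by ring
  have h50 : 0 ≤ (1 + |β| * h) / R := by
    rw [hR]
    positivity
  have h6 : 12 * C1 ≤ L * L := by nlinarith
  calc C1 * G * (1 + |β| * h) / R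
      = C1 * G * ((1 + |β| * h) / R) := by ring
    _ ≤ C1 * (2 * L) * ((1 + |β| * h) / R) := by
        apply mul_le_mul_of_nonneg_right _ h50
        exact mul_le_mul_of_nonneg_left hG hC1.le
    _ ≤ C1 * (2 * L) * (3 * (h / y) / L ^ (A + 3)) := mul_le_mul_of_nonneg_left h5 (by positivity)
    _ = (12 * C1) * (h / y / L ^ A / (2 * (L * L))) := by
        rw [pow_add]
        field_simp
        ring
    _ ≤ (L * L) * (h / y / L ^ A / (2 * (L * L))) := mul_le_mul_of_nonneg_right h6 (by positivity)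
    _ = _ := by field_simp

/-- the second error term -/
theorem term_b (C2 L LX y h β : ℝ) (A B' A' : ℕ) (hC2 : 0 < C2) (hL1 : 1 ≤ L)
    (hy0 : 0 < y) (hh0 : 0 < h) (hβ : |β| ≤ y * L ^ B' / h ^ 2) (hLX2 : L / 2 ≤ LX)
    (hA' : A' = 2 * A + B' + 4) (hC : C2 * 2 ^ (A' + 2) ≤ L) :
    C2 * (h / y) * √((1 + |β| * h ^ 2 / y) * (1 / LX ^ A')) ≤ h / y / L ^ A / 2 := by
  have hL0 : 0 < L := by linarith
  have hLX0 : 0 < LX := by linarith
  have h5 : 1 + |β| * h ^ 2 / y ≤ 2 * L ^ B' := by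
    have h6 : |β| * h ^ 2 / y ≤ L ^ B' := by
      rw [div_le_iff₀ hy0]
      calc |β| * h ^ 2 ≤ (y * L ^ B' / h ^ 2) * h ^ 2 :=
            mul_le_mul_of_nonneg_right hβ (by positivity)
        _ = L ^ B' * y := by field_simp
    have h7 : 1 ≤ L ^ B' := one_le_pow₀ hL1
    linarith
  have h6 : 1 / LX ^ A' ≤ 2 ^ A' / L ^ A' := by
    rw [← div_pow, show (2 : ℝ) / L = 1 / (L / 2) by field_simp, div_pow, one_pow]
    apply one_div_le_one_div_of_le (by positivity)
    exact pow_le_pow_left₀ (by positivity) hLX2 _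
  have h7 : √((1 + |β| * h ^ 2 / y) * (1 / LX ^ A')) ≤ 2 ^ (A' + 1) / L ^ (A + 2) := by
    apply Real.sqrt_le_iff.2
    refine ⟨by positivity, ?_⟩
    have hLA' : L ^ A' = L ^ B' * (L ^ (A + 2)) ^ 2 := by
      rw [← pow_mul, ← pow_add, hA']
      congr 1
      ring
    have hLB : L ^ B' ≠ 0 := by positivity
    calc (1 + |β| * h ^ 2 / y) * (1 / LX ^ A') ≤ (2 * L ^ B') * (2 ^ A' / L ^ A') :=
          mul_le_mul h5 h6 (by positivity) (by positivity)
      _ = 2 ^ (A' + 1) / (L ^ (A + 2)) ^ 2 := by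
          rw [hLA']
          field_simp
          ring
      _ ≤ (2 ^ (A' + 1) / L ^ (A + 2)) ^ 2 := by
          rw [div_pow]
          apply div_le_div_of_nonneg_right _ (by positivity)
          have h8 : (1 : ℝ) ≤ 2 ^ (A' + 1) := one_le_pow₀ (by norm_num)
          calc (2 : ℝ) ^ (A' + 1) = 2 ^ (A' + 1) * 1 := by ring
            _ ≤ 2 ^ (A' + 1) * 2 ^ (A' + 1) := mul_le_mul_of_nonneg_left h8 (by positivity)
            _ = _ := by ring
  have h8 : C2 * 2 ^ (A' + 2) ≤ L * L := by nlinarith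
  have h9 : (2 : ℝ) ^ (A' + 2) = 2 * 2 ^ (A' + 1) := by ring
  calc C2 * (h / y) * √((1 + |β| * h ^ 2 / y) * (1 / LX ^ A'))
      ≤ C2 * (h / y) * (2 ^ (A' + 1) / L ^ (A + 2)) :=
        mul_le_mul_of_nonneg_left h7 (by positivity)
    _ = (C2 * 2 ^ (A' + 2)) * (h / y / L ^ A / (2 * (L * L))) := by
        rw [h9, pow_add L A 2]
        field_simp
    _ ≤ (L * L) * (h / y / L ^ A / (2 * (L * L))) := mul_le_mul_of_nonneg_right h8 (by positivity)
    _ = _ := by field_simp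

theorem hMW (h1 : StTotw) (h2 : StShp) (h3 : StWs) : StMw := by
  obtain ⟨C1, C2, hC1, hC2, hcore⟩ := mw_core h2 h3
  intro η η' hη hηη' hη' w hw A B B'
  set ε : ℝ := (η - 4 / 5) / 2 with hε
  have hε0 : 0 < ε := by rw [hε]; linarith
  set A' : ℕ := 2 * A + B' + 4 with hA'
  obtain ⟨X0, hX0⟩ := h1 w hw ε hε0 A' (B + 1)
  have hlog : Tendsto (fun X : ℕ => Real.log X) atTop atTop :=
    Real.tendsto_log_atTop.comp tendsto_natCast_atTop_atTop
  have e1 : ∀ᶠ y : ℕ in atTop, 2 * X0 + 1000 ≤ y := eventually_ge_atTop _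
  have e2 := ev_log 0 8 (1 - η') (by linarith)
  have e3 := ev_log (B' + (A + 3)) 6 (2 * η - 3 / 2) (by linarith)
  have e4 := ev_log 0 3 (η / 2 - 2 / 5) (by linarith)
  have e5 : ∀ᶠ y : ℕ in atTop, 10 ≤ Real.log y := hlog.eventually_ge_atTop _
  have e6 : ∀ᶠ y : ℕ in atTop, (2 : ℝ) ^ (B + 1) ≤ Real.log y := hlog.eventually_ge_atTop _
  have e7 : ∀ᶠ y : ℕ in atTop, 12 * C1 ≤ Real.log y := hlog.eventually_ge_atTop _
  have e8 : ∀ᶠ y : ℕ in atTop, C2 * 2 ^ (A' + 2) ≤ Real.log y := hlog.eventually_ge_atTop _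
  obtain ⟨y0, hy0⟩ := eventually_atTop.1
    (e1.and (e2.and (e3.and (e4.and (e5.and (e6.and (e7.and e8)))))))
  refine ⟨y0, fun y h q u hy hhl hhu hq hqB β hβ => ?_⟩
  obtain ⟨f1, f2, f3, f4, f5, f6, f7, f8⟩ := hy0 y hy
  set X : ℕ := y / 2 with hX
  have hXy1 : 2 * X ≤ y := by omega
  have hXy2 : y ≤ 2 * X + 1 := by omega
  have hXr1 : 2 * (X : ℝ) ≤ y := by exact_mod_cast hXy1
  have hXr2 : (y : ℝ) ≤ 2 * X + 1 := by exact_mod_cast hXy2
  have hyr : (1000 : ℝ) ≤ y := by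
    have : 1000 ≤ y := by omega
    exact_mod_cast this
  have hy0' : (0 : ℝ) < y := by linarith
  have hX0r : (0 : ℝ) < X := by linarith
  have hX3 : (y : ℝ) / 3 ≤ X := by linarith
  set L := Real.log (y : ℝ) with hL
  set LX := Real.log (X : ℝ) with hLX
  have hL1 : 1 ≤ L := by linarith
  have hL0 : 0 < L := by linarith
  have hl3 : Real.log 3 ≤ 2 := by
    rw [Real.log_le_iff_le_exp (by norm_num)]
    have h5 := Real.add_one_le_exp (2 : ℝ)
    linarith
  have hLX2 : L / 2 ≤ LX := by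
    have h5 : Real.log ((y : ℝ) / 3) ≤ LX := Real.log_le_log (by positivity) hX3
    rw [Real.log_div hy0'.ne' (by norm_num)] at h5
    linarith
  have hLX0 : 0 < LX := by linarith
  -- the size of h
  have hh8 : 8 * (h : ℝ) ≤ y := by
    have h5 : 8 * (y : ℝ) ^ η' ≤ y := by
      have h6 : (y : ℝ) = (y : ℝ) ^ (1 - η') * (y : ℝ) ^ η' := by
        rw [← Real.rpow_add hy0']
        simp
      rw [pow_zero, mul_one] at f2
      calc 8 * (y : ℝ) ^ η' ≤ (y : ℝ) ^ (1 - η') * (y : ℝ) ^ η' :=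
            mul_le_mul_of_nonneg_right f2 (Real.rpow_nonneg hy0'.le _)
        _ = y := h6.symm
    linarith
  have hpη : 0 < (y : ℝ) ^ η := Real.rpow_pos_of_pos hy0' _
  have hh0r : (0 : ℝ) < h := lt_of_lt_of_le hpη hhl
  have hh0 : 0 < h := by exact_mod_cast hh0r
  have hhX : h ≤ X := by
    have : (h : ℝ) ≤ X := by linarith
    exact_mod_cast this
  have hhy : h ≤ y := by omega
  have hyh3 : y + h ≤ 3 * X := by
    have : (y : ℝ) + h ≤ 3 * X := by linarith
    exact_mod_cast this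
  have hX1 : 1 ≤ X := by omega
  have hX1r : (1 : ℝ) ≤ X := by exact_mod_cast hX1
  -- R
  set R : ℝ := (1 + |β| * X + X / h) * L ^ (A + 3) with hR
  have hLD : 1 ≤ L ^ (A + 3) := one_le_pow₀ hL1
  have hb0 : 0 ≤ |β| * X := by positivity
  have hXh0 : 0 ≤ (X : ℝ) / h := by positivity
  have hR1 : 1 ≤ R := by
    rw [hR]
    nlinarith
  have hRb : R ≤ 2 * (y : ℝ) ^ (2 - 2 * η) * (L ^ B' * L ^ (A + 3)) :=
    R_bound y h X L β η (L ^ (A + 3)) B' (by linarith) hL1 (by linarith) hhl hX0r.le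
      (by linarith) hβ (by positivity)
  have hsX : √(y : ℝ) ≤ 2 * √(X : ℝ) := by
    have : 2 * √(X : ℝ) = √(4 * X) := by
      rw [Real.sqrt_mul (by norm_num), show (4 : ℝ) = 2 ^ 2 by norm_num, Real.sqrt_sq (by norm_num)]
    rw [this]
    apply Real.sqrt_le_sqrt
    linarith
  have hs2 : √2 ≤ (1.5 : ℝ) := by
    rw [Real.sqrt_le_left (by norm_num)]
    norm_num
  have hs2' : 1 ≤ √(2 : ℝ) := by rw [Real.one_le_sqrt]; norm_num
  have hsR : √2 * R ≤ √(X : ℝ) := by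
    have h5 : 6 * (y : ℝ) ^ (2 - 2 * η) * (L ^ B' * L ^ (A + 3)) ≤ √(y : ℝ) := by
      have h6 : (y : ℝ) ^ (2 * η - 3 / 2) * (y : ℝ) ^ (2 - 2 * η) = √(y : ℝ) := by
        rw [← Real.rpow_add hy0', Real.sqrt_eq_rpow]
        congr 1
        ring
      rw [← h6, ← pow_add]
      calc 6 * (y : ℝ) ^ (2 - 2 * η) * L ^ (B' + (A + 3)) =
            (6 * L ^ (B' + (A + 3))) * (y : ℝ) ^ (2 - 2 * η) := by ring
        _ ≤ _ := mul_le_mul_of_nonneg_right f3 (Real.rpow_nonneg hy0'.le _)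
    have h7 : √2 * R ≤ 1.5 * R := mul_le_mul_of_nonneg_right hs2 (by linarith)
    linarith
  have hs1X : √(X : ℝ) ≤ X := by
    have h5 := Real.mul_self_sqrt hX0r.le
    have h6 : 1 ≤ √(X : ℝ) := by rw [Real.one_le_sqrt]; exact hX1r
    nlinarith
  have hRX : R ≤ X := by nlinarith
  have hT1 : 1 ≤ √2 * R := by nlinarith
  -- W
  have hW1 : (1 : ℝ) ≤ (y : ℝ) / h := by
    rw [le_div_iff₀ hh0r]
    linarith
  have hW2 : (y : ℝ) / h ≤ (X : ℝ) ^ (1 / 5 - ε) := by
    have h5 : (y : ℝ) / h ≤ (y : ℝ) ^ (1 - η) := by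
      rw [div_le_iff₀ hh0r]
      calc (y : ℝ) = (y : ℝ) ^ (1 - η) * (y : ℝ) ^ η := by
            rw [← Real.rpow_add hy0']
            simp
        _ ≤ (y : ℝ) ^ (1 - η) * h := mul_le_mul_of_nonneg_left hhl (Real.rpow_nonneg hy0'.le _)
    have h6 : 3 * (y : ℝ) ^ (1 - η) ≤ (y : ℝ) ^ (1 / 5 - ε) := by
      have h7 : (y : ℝ) ^ (η / 2 - 2 / 5) * (y : ℝ) ^ (1 - η) = (y : ℝ) ^ (1 / 5 - ε) := by
        rw [← Real.rpow_add hy0', hε]
        congr 1
        ring
      rw [← h7]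
      rw [pow_zero, mul_one] at f4
      exact mul_le_mul_of_nonneg_right f4 (Real.rpow_nonneg hy0'.le _)
    have h8 : (y : ℝ) ^ (1 / 5 - ε) ≤ 3 * (X : ℝ) ^ (1 / 5 - ε) := by
      have h9 : 0 ≤ 1 / 5 - ε := by rw [hε]; linarith
      have h10 : 1 / 5 - ε ≤ 1 := by linarith
      calc (y : ℝ) ^ (1 / 5 - ε) ≤ (3 * (X : ℝ)) ^ (1 / 5 - ε) :=
            Real.rpow_le_rpow hy0'.le (by linarith) h9
        _ = (3 : ℝ) ^ (1 / 5 - ε) * (X : ℝ) ^ (1 / 5 - ε) :=
            Real.mul_rpow (by norm_num) hX0r.le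
        _ ≤ 3 * (X : ℝ) ^ (1 / 5 - ε) := by
            apply mul_le_mul_of_nonneg_right _ (Real.rpow_nonneg hX0r.le _)
            calc (3 : ℝ) ^ (1 / 5 - ε) ≤ (3 : ℝ) ^ (1 : ℝ) :=
                  Real.rpow_le_rpow_of_exponent_le (by norm_num) h10
              _ = 3 := Real.rpow_one _
    linarith
  -- q
  have hqB' : (q : ℝ) ≤ LX ^ (B + 1) := by
    refine hqB.trans ?_
    calc L ^ B ≤ (2 * LX) ^ B := pow_le_pow_left₀ hL0.le (by linarith) _
      _ = 2 ^ B * LX ^ B := by rw [mul_pow]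
      _ ≤ LX * LX ^ B := by
          apply mul_le_mul_of_nonneg_right _ (by positivity)
          rw [pow_succ] at f6
          linarith
      _ = LX ^ (B + 1) := by ring
  have hE : (0 : ℝ) ≤ 1 / LX ^ A' := by positivity
  have main := hcore w hw X y h q u β R (1 / LX ^ A') hX1 hhX hR1 hRX (by linarith) hyh3 hh0 hhy hE
    (fun J => hX0 X (by omega) q u hq hqB' (√2 * R) ((y : ℝ) / h) hW1 hW2 hT1 hsR J)
  refine main.trans ?_
  -- the two terms
  have hG : Real.log (3 * (X : ℝ)) + 1 ≤ 2 * L := by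
    have h5 : Real.log (3 * (X : ℝ)) ≤ Real.log (3 * (y : ℝ)) :=
      Real.log_le_log (by positivity) (by linarith)
    rw [Real.log_mul (by norm_num) hy0'.ne'] at h5
    linarith
  have t1 := term_a C1 L R X y h β (Real.log (3 * X) + 1) A hC1 hL1 hX0r hy0' hh0r hG hX3 hR f7
  have t2 := term_b C2 L LX y h β A B' A' hC2 hL1 hy0' hh0r hβ hLX2 hA' f8
  linarith

end Pool.Agent.Helper85.SU
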