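import Pool.Agent.Helper83.SU.St

set_option autoImplicit false

namespace Pool.Agent.Helper85.SU

open Pool.Agent.Helper83.SU Pool.Agent.Helper83.CK Cardinal Set

universe u

theorem mSQ : StRN.{u} → StMG.{u} → StPA.{u} → StS1.{u} → StS2.{u} → StS3.{u} → StOT.{u} →
    StCB.{u} → StSQ.{u} := by
  classical
  intro hRN hMG hPA hS1 hS2 hS3 hOT hCB k l hk hk0 hl hkl hneg hsq
  obtain ⟨C, b₀, hC1, hC2⟩ := hsq
  obtain ⟨K, hK⟩ := exists_subset_card l k hkl.le
  obtain ⟨gPA, hgPA⟩ := hPA k l K hk.aleph0_le hkl hK hneg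
  obtain ⟨ot1, ot2, ot3, ot4, ot5⟩ := hOT l.ord.ToType
  let m : l.ord.ToType → l.ord.ToType → l.ord.ToType := fun β ξ =>
    if h : ∃ c, c ∈ C β ∧ ξ < c then Classical.choose h else ξ
  have hm1 : ∀ β ξ, (∃ c, c ∈ C β ∧ ξ < c) → m β ξ ∈ C β ∧ ξ < m β ξ := by
    intro β ξ h
    have : m β ξ = Classical.choose h := dif_pos h
    rw [this]; exact Classical.choose_spec h
  let p : l.ord.ToType → l.ord.ToType := fun β =>
    if h : ∃ q, q < β ∧ ∀ x, ¬ (q < x ∧ x < β) then Classical.choose h else β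
  have hp1 : ∀ β, (∃ q, q < β ∧ ∀ x, ¬ (q < x ∧ x < β)) → p β < β ∧ ∀ x, ¬ (p β < x ∧ x < β) := by
    intro β h
    have : p β = Classical.choose h := dif_pos h
    rw [this]; exact Classical.choose_spec h
  have ho1 : ∀ β ξ, ∃ b : l.ord.ToType, ot (Iio b) = ot (C β ∩ Iio ξ) := fun β ξ =>
    ot5 ξ _ (ot1 _ _ inter_subset_right)
  choose o ho using ho1
  let G : ℕ → (ℕ → Bool) → (ℕ → l.ord.ToType) → l.ord.ToType := fun n =>
    if n = 0 then gPA else if n = 1 then (fun _ _ => b₀) else if n = 2 then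
      (fun _ x => m (x 0) (x 1)) else if n = 3 then (fun _ x => p (x 0)) else
      (fun _ x => o (x 0) (x 1))
  obtain ⟨g, hg⟩ := hMG l.ord.ToType G
  have hSm : Sm k K (univ : Set l.ord.ToType) := by
    refine ⟨g, fun A hA hAK => ?_⟩
    by_contra hcon
    rw [inter_univ, not_lt] at hcon
    have hcl := (hg A).1 hA
    have h0 : ∀ b ∈ A, #(A ∩ Iio b : Set l.ord.ToType) < k := by
      refine hgPA A ?_ hAK
      have := hcl 0
      simpa [G] using this
    obtain ⟨a, ha⟩ : A.Nonempty := by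
      rw [nonempty_iff_ne_empty]
      rintro rfl
      rw [mk_eq_zero] at hcon
      exact absurd (hk0.trans_le hcon) (by simp)
    have hb0 : b₀ ∈ A := by
      have := hcl 1 (fun _ => true) (fun _ => a) (fun _ => ha)
      simpa [G] using this
    have two : ∀ β ∈ A, ∀ ξ ∈ A, ∀ n, (fun n : ℕ => if n = 0 then β else ξ) n ∈ A := by
      intro β hβ ξ hξ n
      by_cases hn : n = 0
      · simpa [hn] using hβ
      · simpa [hn] using hξ
    have hm : ∀ β ∈ A, ∀ ξ ∈ A, m β ξ ∈ A := by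
      intro β hβ ξ hξ
      have := hcl 2 (fun _ => true) (fun n => if n = 0 then β else ξ) (two β hβ ξ hξ)
      have e : G 2 (fun _ => true) (fun n => if n = 0 then β else ξ) = m β ξ := by
        simp only [G]; norm_num
      rwa [e] at this
    have hp : ∀ β ∈ A, p β ∈ A := by
      intro β hβ
      have := hcl 3 (fun _ => true) (fun _ => β) (fun _ => hβ)
      have e : G 3 (fun _ => true) (fun _ => β) = p β := by
        simp only [G]; norm_num
      rwa [e] at this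
    have ho' : ∀ β ∈ A, ∀ ξ ∈ A, o β ξ ∈ A := by
      intro β hβ ξ hξ
      have := hcl 4 (fun _ => true) (fun n => if n = 0 then β else ξ) (two β hβ ξ hξ)
      have e : G 4 (fun _ => true) (fun n => if n = 0 then β else ξ) = o β ξ := by
        simp only [G]; norm_num
      rwa [e] at this
    have hS1' := hS1 l.ord.ToType k A hk hcon h0
    obtain ⟨δ, hAδ, hcof, X, hX, hXk, hXcof⟩ := hS2 k l A hk hl hkl hcon h0
    have hδlim : Lim δ (univ : Set l.ord.ToType) := by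
      refine ⟨⟨b₀, hAδ b₀ hb0⟩, fun ξ hξ => ?_⟩
      obtain ⟨c, hc, hξc⟩ := hcof ξ hξ
      exact ⟨c, mem_univ _, hξc, hAδ c hc⟩
    obtain ⟨hCδsub, hCδlim, hCδcoh⟩ := hC1 δ hδlim
    have hotlt := hC2 δ (hAδ b₀ hb0) ⟨X, hX, hXk, hXcof⟩
    obtain ⟨η, hη⟩ := ot5 δ (ot (C δ)) hotlt.le
    have hηδ : η < δ := (ot4 η δ).1 (by rw [hη]; exact hotlt)
    obtain ⟨b, hbA, hηb⟩ := hcof η hηδ
    have hbot : ot (C δ) < ot (Iio b) := by
      rw [← hη]; exact (ot4 η b).2 hηb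
    have hS3' := hS3 l.ord.ToType k A (C δ) δ hk0 hS1' hAδ hcof hCδlim.2
    refine hCB l.ord.ToType k A C δ b o hS1' h0 hAδ hcof
      (fun δ h => ⟨(hC1 δ h).1, (hC1 δ h).2.2⟩) ?_ ?_
      (fun β hβ ξ hξ => ⟨ho' β hβ ξ hξ, ho β ξ⟩) ⟨hbA, hbot⟩ hS3' hδlim
    · intro β hβ hβl ξ hξ hξβ
      obtain ⟨c, hc, hξc, _⟩ := (hC1 β hβl).2.1.2 ξ hξβ
      have h1 := hm1 β ξ ⟨c, hc, hξc⟩
      exact ⟨m β ξ, h1.1, hm β hβ ξ hξ, h1.2⟩
    · intro β hβ hβl γ hγ
      have h1 : ∃ q, q < β ∧ ∀ x, ¬ (q < x ∧ x < β) := by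
        by_contra hno
        push Not at hno
        apply hβl
        refine ⟨⟨γ, hγ⟩, fun ξ hξ => ?_⟩
        obtain ⟨x, hx1, hx2⟩ := hno ξ hξ
        exact ⟨x, mem_univ _, hx1, hx2⟩
      have h2 := hp1 β h1
      refine ⟨p β, hp β hβ, ?_, h2.1⟩
      by_contra hlt
      rw [not_le] at hlt
      exact h2.2 γ ⟨hlt, hγ⟩
  have h := hRN l.ord.ToType k K hk.aleph0_le hK hSm
  rwa [mk_ord_toType] at h

end Pool.Agent.Helper85.SU
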