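import Pool.Agent.Helper58.SU.StP

/-!
# Project SU, module MW, part a: Gaussian Fourier inversion and Fubini
-/

set_option autoImplicit false

namespace Pool.Agent.Helper85.SU

open Finset MeasureTheory
open Pool.Agent.Helper48.BK (ex)
open Pool.Agent.Helper2.MR (ch)
open Pool.Agent.Helper58.SU

/-- the Gaussian kernel -/
theorem kerR (T : ℝ) (hT : 0 < T) (s : ℝ) :
    ∫ t : ℝ, Complex.exp (-(((T ^ 2)⁻¹ : ℝ) : ℂ) * (t : ℂ) ^ 2 + ((s : ℂ) * Complex.I) * t + 0) =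
      ((T * √Real.pi * Real.exp (-(T ^ 2 * s ^ 2 / 4)) : ℝ) : ℂ) := by
  have hT2 : 0 < (T ^ 2)⁻¹ := by positivity
  rw [integral_cexp_quadratic (b := -(((T ^ 2)⁻¹ : ℝ) : ℂ)) (by
    rw [Complex.neg_re, Complex.ofReal_re]; linarith)]
  have h0 : ∀ w : ℝ, 0 ≤ w → ((w : ℂ)) ^ ((1 : ℂ) / 2) = ((√w : ℝ) : ℂ) := by
    intro w hw
    rw [Real.sqrt_eq_rpow, Complex.ofReal_cpow hw]
    norm_num
  rw [neg_neg, ← Complex.ofReal_div, h0 _ (by positivity)]
  have h1 : √(Real.pi / (T ^ 2)⁻¹) = T * √Real.pi := by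
    rw [div_inv_eq_mul, Real.sqrt_mul Real.pi_pos.le, Real.sqrt_sq hT.le, mul_comm]
  rw [h1, Complex.ofReal_mul (T * √Real.pi), Complex.ofReal_exp]
  congr 2
  have hTc : (T : ℂ) ≠ 0 := by exact_mod_cast hT.ne'
  push_cast
  rw [mul_pow, Complex.I_sq]
  field_simp
  ring

/-- the weighted Dirichlet polynomial -/
noncomputable def aa (S : Finset ℕ) (c : ℕ → ℂ) (T : ℝ) (t : ℝ) : ℂ :=
  ((Real.exp (-(t / T) ^ 2) : ℝ) : ℂ) * ∑ m ∈ S, c m * ch t m

theorem aa_eq (S : Finset ℕ) (c : ℕ → ℂ) (T t : ℝ) :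
    aa S c T t = ∑ m ∈ S, c m * Complex.exp (-(((T ^ 2)⁻¹ : ℝ) : ℂ) * (t : ℂ) ^ 2 +
      ((((-Real.log m : ℝ)) : ℂ) * Complex.I) * t + 0) := by
  unfold aa ch
  rw [Finset.mul_sum]
  refine Finset.sum_congr rfl fun m _ => ?_
  rw [Complex.ofReal_exp, mul_left_comm, ← Complex.exp_add]
  congr 2
  push_cast
  rw [div_pow, div_eq_mul_inv]
  ring

theorem aa_int (S : Finset ℕ) (c : ℕ → ℂ) (T : ℝ) (hT : 0 < T) : Integrable (aa S c T) := by
  have hT3 : 0 < (T ^ 2)⁻¹ := by positivity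
  have h : aa S c T = fun t : ℝ => ∑ m ∈ S, c m * Complex.exp (-(((T ^ 2)⁻¹ : ℝ) : ℂ) * (t : ℂ) ^ 2 +
      ((((-Real.log m : ℝ)) : ℂ) * Complex.I) * t + 0) := funext fun t => aa_eq S c T t
  rw [h]
  refine integrable_finsetSum _ fun m _ => Integrable.const_mul ?_ _
  exact integrable_cexp_quadratic (by rw [Complex.ofReal_re]; exact hT3) _ _

theorem aa_norm (S : Finset ℕ) (c : ℕ → ℂ) (T t : ℝ) :
    ‖aa S c T t‖ = Real.exp (-(t / T) ^ 2) * ‖∑ m ∈ S, c m * ch t m‖ := by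
  unfold aa
  rw [norm_mul, Complex.norm_real, Real.norm_of_nonneg (Real.exp_pos _).le]

/-- Gaussian sums are Fourier integrals of `aa` -/
theorem gsum (S : Finset ℕ) (c : ℕ → ℂ) (T : ℝ) (hT : 0 < T) (v : ℝ) :
    ∫ t : ℝ, aa S c T t * Complex.exp (((t * v : ℝ) : ℂ) * Complex.I) =
      ∑ m ∈ S, c m * ((T * √Real.pi * Real.exp (-(T ^ 2 * (v - Real.log m) ^ 2 / 4)) : ℝ) : ℂ) := by
  have hT3 : 0 < (T ^ 2)⁻¹ := by positivity
  have h : (fun t : ℝ => aa S c T t * Complex.exp (((t * v : ℝ) : ℂ) * Complex.I)) =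
      fun t : ℝ => ∑ m ∈ S, c m * Complex.exp (-(((T ^ 2)⁻¹ : ℝ) : ℂ) * (t : ℂ) ^ 2 +
      ((((v - Real.log m : ℝ)) : ℂ) * Complex.I) * t + 0) := by
    funext t
    rw [aa_eq, Finset.sum_mul]
    refine Finset.sum_congr rfl fun m _ => ?_
    rw [mul_assoc, ← Complex.exp_add]
    congr 2
    push_cast
    ring
  rw [h, integral_finsetSum]
  · refine Finset.sum_congr rfl fun m _ => ?_
    rw [integral_const_mul, kerR T hT]
  · intro m _
    refine Integrable.const_mul ?_ _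
    exact integrable_cexp_quadratic (by rw [Complex.ofReal_re]; exact hT3) _ _

/-- Fubini -/
theorem fub (S : Finset ℕ) (c : ℕ → ℂ) (T : ℝ) (hT : 0 < T) (β a b : ℝ) :
    ∫ v in a..b, ex (β * Real.exp v) *
      ∑ m ∈ S, c m * ((T * √Real.pi * Real.exp (-(T ^ 2 * (v - Real.log m) ^ 2 / 4)) : ℝ) : ℂ) =
    ∫ t : ℝ, aa S c T t * ∫ v in a..b,
      Complex.exp (((2 * Real.pi * β * Real.exp v + t * v : ℝ) : ℂ) * Complex.I) := by
  have h1 : ∀ v : ℝ, ex (β * Real.exp v) *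
      ∑ m ∈ S, c m * ((T * √Real.pi * Real.exp (-(T ^ 2 * (v - Real.log m) ^ 2 / 4)) : ℝ) : ℂ) =
      ∫ t : ℝ, aa S c T t *
        Complex.exp (((2 * Real.pi * β * Real.exp v + t * v : ℝ) : ℂ) * Complex.I) := by
    intro v
    rw [← gsum S c T hT v, ← integral_const_mul]
    congr 1
    funext t
    unfold ex
    rw [mul_left_comm, ← Complex.exp_add]
    congr 2
    push_cast
    ring
  simp_rw [h1]
  rw [intervalIntegral_integral_swap]
  · congr 1
    funext t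
    rw [intervalIntegral.integral_const_mul]
  · haveI : IsFiniteMeasure (volume.restrict (Set.uIoc a b)) := by
      refine ⟨?_⟩
      rw [Measure.restrict_apply_univ, Set.uIoc]
      exact measure_Ioc_lt_top
    have hint : Integrable (fun x : ℝ × ℝ => aa S c T x.2)
        ((volume.restrict (Set.uIoc a b)).prod volume) := (aa_int S c T hT).comp_snd _
    refine hint.mul_bdd (c := 1) ?_ ?_
    · apply Continuous.aestronglyMeasurable
      fun_prop
    · refine Filter.Eventually.of_forall fun x => ?_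
      rw [Complex.norm_exp_ofReal_mul_I]

end Pool.Agent.Helper85.SU
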