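import Pool.Agent.Helper85.SU.MWa
import Pool.Agent.Helper16.GK.M_WIN

/-!
# Project SU, module MW, part b: the inequality with parameters
-/

set_option autoImplicit false

namespace Pool.Agent.Helper85.SU

open Finset MeasureTheory
open Pool.Agent.Helper48.BK (ex)
open Pool.Agent.Helper2.MR (ch)
open Pool.Agent.Helper15.AB (IsW)
open Pool.Agent.Helper23.GK
open Pool.Agent.Helper58.SU

/-- the inequality with parameters -/
theorem mw_core (h2 : StShp) (h3 : StWs) : ∃ C1 C2 : ℝ, 0 < C1 ∧ 0 < C2 ∧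
    ∀ w, IsW w → ∀ (X y h q u : ℕ) (β R E : ℝ), 1 ≤ X → h ≤ X → 1 ≤ R → R ≤ X →
    (X : ℝ) / 2 ≤ y → y + h ≤ 3 * X → 0 < h → h ≤ y → 0 ≤ E →
    (∀ J : ℕ, wsq (fun t => Real.exp (-(t / (√2 * R)) ^ 2) * ‖GB w X q u t‖) ((y : ℝ) / h) J ≤ E) →
    ‖∑ m ∈ Ioc y (y + h), ((gw w (X : ℝ) q u m / m : ℝ) : ℂ) * ex (m * β)‖ ≤
      C1 * (Real.log (3 * X) + 1) * (1 + |β| * h) / R +
        C2 * ((h : ℝ) / y) * √((1 + |β| * (h : ℝ) ^ 2 / y) * E) := by
  obtain ⟨C1, hC1, hshp⟩ := h2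
  obtain ⟨C2, hC2, hws⟩ := h3
  refine ⟨C1, C2, hC1, hC2, ?_⟩
  intro w hw X y h q u β R E hX hhX hR1 hRX hXy hyh hh hhy hE hwsq
  have hT : 0 < √2 * R := by positivity
  have hXr : (1 : ℝ) ≤ X := by exact_mod_cast hX
  have hlog : 0 ≤ Real.log (3 * (X : ℝ)) := Real.log_nonneg (by linarith)
  have key := hshp (fun m => gw w (X : ℝ) q u m) X y h (Real.log (3 * X) + 1) R β hX hhX hR1 hRX
    (by linarith) (fun n => Pool.Agent.Helper16.GK.WIN.gw_le w hw X q u hX n) hXy hyh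
  set c : ℕ → ℂ := fun m => ((gw w X q u m : ℝ) : ℂ) / m with hc
  have hfub := fub (Icc 1 (3 * X)) c (√2 * R) hT β (Real.log y) (Real.log ((y : ℝ) + h))
  have hs2 : √2 * √2 = (2 : ℝ) := Real.mul_self_sqrt (by norm_num)
  have hsp : √(2 * Real.pi) = √2 * √Real.pi := Real.sqrt_mul (by norm_num) _
  have hspos : 0 < √(2 * Real.pi) := by positivity
  have e1 : (∫ v in (Real.log y)..(Real.log ((y : ℝ) + h)), ex (β * Real.exp v) *
      ∑ m ∈ Icc 1 (3 * X), c m * ((√2 * R * √Real.pi *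
        Real.exp (-((√2 * R) ^ 2 * (v - Real.log m) ^ 2 / 4)) : ℝ) : ℂ)) =
      ((√(2 * Real.pi) : ℝ) : ℂ) * ∫ v in (Real.log y)..(Real.log ((y : ℝ) + h)),
      ex (β * Real.exp v) * ∑ m ∈ Icc 1 (3 * X), ((gw w (X : ℝ) q u m : ℝ) : ℂ) / m *
        ((R * Real.exp (-(R ^ 2 * (v - Real.log m) ^ 2 / 2)) : ℝ) : ℂ) := by
    rw [← intervalIntegral.integral_const_mul]
    congr 1
    funext v
    rw [mul_left_comm]
    congr 1
    rw [Finset.mul_sum]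
    refine Finset.sum_congr rfl fun m _ => ?_
    rw [mul_left_comm]
    congr 1
    rw [← Complex.ofReal_mul]
    congr 1
    have e2 : (√2 * R) ^ 2 * (v - Real.log m) ^ 2 / 4 = R ^ 2 * (v - Real.log m) ^ 2 / 2 := by
      rw [mul_pow, sq (√2), hs2]
      ring
    rw [e2, hsp]
    ring
  set I0 : ℂ := ∫ v in (Real.log y)..(Real.log ((y : ℝ) + h)),
      ex (β * Real.exp v) * ∑ m ∈ Icc 1 (3 * X), ((gw w (X : ℝ) q u m : ℝ) : ℂ) / m *
        ((R * Real.exp (-(R ^ 2 * (v - Real.log m) ^ 2 / 2)) : ℝ) : ℂ) with hI0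
  rw [hfub] at e1
  have hwsE := hws (aa (Icc 1 (3 * X)) c (√2 * R)) y h β E (aa_int _ _ _ hT)
    (by exact_mod_cast hh) (by exact_mod_cast hhy) hE (by
      intro J
      have : (fun t => ‖aa (Icc 1 (3 * X)) c (√2 * R) t‖) =
          fun t => Real.exp (-(t / (√2 * R)) ^ 2) * ‖GB w X q u t‖ := by
        funext t
        rw [aa_norm]
        rfl
      rw [this]
      exact hwsq J)
  have e3 : ‖∫ t : ℝ, aa (Icc 1 (3 * X)) c (√2 * R) t * ∫ v in (Real.log y)..(Real.log ((y : ℝ) + h)),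
      Complex.exp (((2 * Real.pi * β * Real.exp v + t * v : ℝ) : ℂ) * Complex.I)‖ ≤
      C2 * ((h : ℝ) / y) * √((1 + |β| * (h : ℝ) ^ 2 / y) * E) := hwsE
  rw [e1, norm_mul, Complex.norm_real, Real.norm_of_nonneg hspos.le] at e3
  have hge : 1 ≤ √(2 * Real.pi) := by
    rw [Real.one_le_sqrt]
    linarith [Real.pi_gt_three]
  have hmain : ‖((1 / √(2 * Real.pi) : ℝ) : ℂ) * I0‖ ≤
      C2 * ((h : ℝ) / y) * √((1 + |β| * (h : ℝ) ^ 2 / y) * E) := by
    rw [norm_mul, Complex.norm_real, Real.norm_of_nonneg (by positivity)]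
    have h5 : 1 / √(2 * Real.pi) ≤ √(2 * Real.pi) := by
      rw [div_le_iff₀ hspos]
      nlinarith
    exact (mul_le_mul_of_nonneg_right h5 (norm_nonneg _)).trans e3
  calc ‖∑ m ∈ Ioc y (y + h), ((gw w (X : ℝ) q u m / m : ℝ) : ℂ) * ex (m * β)‖
      = ‖(∑ m ∈ Ioc y (y + h), ((gw w (X : ℝ) q u m / m : ℝ) : ℂ) * ex (m * β) -
          ((1 / √(2 * Real.pi) : ℝ) : ℂ) * I0) + ((1 / √(2 * Real.pi) : ℝ) : ℂ) * I0‖ := by
        rw [sub_add_cancel]
    _ ≤ _ := (norm_add_le _ _).trans (add_le_add key hmain)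

end Pool.Agent.Helper85.SU
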